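import Pool.Agent.V5helper6.DRB.TR

set_option autoImplicit false

/-!
# Project DRB: irreducible groups of operators with eigenvalues of modulus one
-/

open Module

namespace Pool.Agent.V5helper6.DRB

open Pool.Agent.W544.K3

open scoped Matrix

section
variable {U : Type} [AddCommGroup U] [Module ℝ U] [FiniteDimensional ℝ U]

/-- linear functionals are bounded on sets on which the traces against a spanning set are -/
theorem bdd_of_traces {b : Set (End ℝ U)} (hbf : b.Finite) (hb : Submodule.span ℝ b = ⊤)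
    (c : ℝ) (e : End ℝ U →ₗ[ℝ] ℝ) : ∃ C : ℝ, ∀ g : End ℝ U,
      (∀ y ∈ b, |LinearMap.trace ℝ U (g * y)| ≤ c) → |e g| ≤ C := by
  classical
  have := hbf.fintype
  let Ψ : End ℝ U →ₗ[ℝ] (b → ℝ) :=
    LinearMap.pi fun y => (LinearMap.trace ℝ U) ∘ₗ (LinearMap.mulRight ℝ (y : End ℝ U))
  have hΨ : ∀ x (y : b), Ψ x y = LinearMap.trace ℝ U (x * (y : End ℝ U)) := fun x y => rfl
  have hker : LinearMap.ker Ψ = ⊥ := by
    rw [LinearMap.ker_eq_bot']
    intro x hx
    have h1 : ∀ y : End ℝ U, LinearMap.trace ℝ U (x * y) = 0 := by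
      intro y
      have hy : y ∈ Submodule.span ℝ b := by rw [hb]; exact Submodule.mem_top
      induction hy using Submodule.span_induction with
      | mem y hy =>
        have := congrFun hx ⟨y, hy⟩
        rwa [hΨ] at this
      | zero => rw [mul_zero, map_zero]
      | add y z _ _ h1 h2 => rw [mul_add, map_add, h1, h2, add_zero]
      | smul a y _ h1 => rw [mul_smul_comm, map_smul, h1, smul_zero]
    refine LinearMap.ext fun v => ?_
    rw [LinearMap.zero_apply, ← Module.forall_dual_apply_eq_zero_iff ℝ]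
    intro φ
    have h2 := h1 (φ.smulRight v)
    have h3 : x * φ.smulRight v = φ.smulRight (x v) := by
      ext w
      simp
    rw [h3, LinearMap.trace_smulRight] at h2
    exact h2
  obtain ⟨L, hL⟩ := LinearMap.exists_leftInverse_of_injective Ψ hker
  refine ⟨∑ k : b, |(e ∘ₗ L) (Pi.single k 1)| * |c|, fun g hg => ?_⟩
  have h1 : e g = (e ∘ₗ L) (Ψ g) := by
    have h2 : L (Ψ g) = g := by
      have := LinearMap.congr_fun hL g
      simpa using this
    rw [LinearMap.comp_apply, h2]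
  have h2 : (e ∘ₗ L) (Ψ g) = ∑ k : b, Ψ g k * (e ∘ₗ L) (Pi.single k 1) := by
    conv_lhs => rw [pi_eq_sum_univ' (Ψ g)]
    rw [map_sum]
    refine Finset.sum_congr rfl fun k _ => ?_
    rw [map_smul, smul_eq_mul]
  rw [h1, h2]
  refine (Finset.abs_sum_le_sum_abs _ _).trans (Finset.sum_le_sum fun k _ => ?_)
  rw [abs_mul, mul_comm]
  refine mul_le_mul_of_nonneg_left ?_ (abs_nonneg _)
  rw [hΨ]
  exact (hg k k.2).trans (le_abs_self c)

/-- the last part: an invariant inner product and an invariant form -/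
theorem scalar_of_inner {G : Set (End ℝ U)}
    (hinv : ∀ g ∈ G, ∃ g' ∈ G, g * g' = 1 ∧ g' * g = 1) (hirr : CIrr G)
    (Pf : U →ₗ[ℝ] U →ₗ[ℝ] ℝ) (hPs : ∀ u v, Pf u v = Pf v u) (hPp : ∀ u, u ≠ 0 → 0 < Pf u u)
    (hP : ∀ g ∈ G, ∀ u v, Pf (g u) (g v) = Pf u v)
    (B : U →ₗ[ℝ] U →ₗ[ℝ] ℝ) (hBs : ∀ u v, B u v = B v u)
    (hB : ∀ g ∈ G, ∀ u v, B (g u) (g v) = B u v) :
    ¬ ((∃ u, 0 < B u u) ∧ ∃ u, B u u < 0) := by
  rintro ⟨⟨u₁, hu₁⟩, u₂, hu₂⟩
  have hnt : Nontrivial U := by
    refine ⟨u₁, 0, ?_⟩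
    rintro rfl
    simp at hu₁
  have hinj : Function.Injective Pf := by
    rw [← LinearMap.ker_eq_bot, LinearMap.ker_eq_bot']
    intro u hu
    by_contra h
    have := hPp u h
    rw [hu] at this
    simp at this
  set e := LinearMap.linearEquivOfInjective Pf hinj (Subspace.dual_finrank_eq).symm with he
  have hee : ∀ u, e u = Pf u := fun u => rfl
  set C : End ℝ U := e.symm.toLinearMap ∘ₗ B with hC
  have hCP : ∀ u v, Pf (C u) v = B u v := by
    intro u v
    have h1 : e (C u) = B u := by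
      rw [hC, LinearMap.comp_apply]
      exact e.apply_symm_apply _
    rw [← hee, h1]
  have hcomm : ∀ g ∈ G, ∀ u, C (g u) = g (C u) := by
    intro g hg u
    apply hinj
    refine LinearMap.ext fun v => ?_
    obtain ⟨g', hg', h1, h2⟩ := hinv g hg
    have h3 : v = g (g' v) := by
      have := LinearMap.congr_fun h1 v
      exact this.symm
    rw [hCP, h3, hB g hg, hP g hg, hCP]
  obtain ⟨α, β, u0, v0, h0, h1, h2⟩ := exists_ceig C
  have hβ : β = 0 := by
    have h3 : Pf (C u0) v0 = Pf (C v0) u0 := by rw [hCP, hCP, hBs]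
    rw [h1, h2, map_sub, map_add, map_smul, map_smul, map_smul, map_smul, LinearMap.sub_apply,
      LinearMap.add_apply, LinearMap.smul_apply, LinearMap.smul_apply, LinearMap.smul_apply,
      LinearMap.smul_apply, hPs v0 u0] at h3
    simp only [smul_eq_mul] at h3
    have h4 : 0 < Pf u0 u0 + Pf v0 v0 := by
      have hn : ∀ u, 0 ≤ Pf u u := by
        intro u
        by_cases hu : u = 0
        · rw [hu]; simp
        · exact (hPp u hu).le
      rcases h0 with h0 | h0
      · have := hPp _ h0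
        have := hn v0
        linarith
      · have := hPp _ h0
        have := hn u0
        linarith
    have h5 : β * (Pf u0 u0 + Pf v0 v0) = 0 := by linarith
    rcases mul_eq_zero.1 h5 with h | h
    · exact h
    · exact absurd h h4.ne'
  rw [hβ] at h1 h2
  have h1' : C u0 = α • u0 := by rw [h1, zero_smul, sub_zero]
  have h2' : C v0 = α • v0 := by rw [h2, zero_smul, zero_add]
  let M : Submodule ℝ (U × U) := (End.eigenspace C α).prod (End.eigenspace C α)
  have hM : ∀ p : U × U, p ∈ M ↔ C p.1 = α • p.1 ∧ C p.2 = α • p.2 := by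
    intro p
    rw [Submodule.mem_prod, End.mem_eigenspace_iff, End.mem_eigenspace_iff]
  rcases hirr M (by
    intro p hp
    rw [hM] at hp ⊢
    refine ⟨?_, hp.1⟩
    show C (-p.2) = α • (-p.2)
    rw [map_neg, hp.2, smul_neg]) (by
    intro y hy p hp
    rw [hM] at hp ⊢
    refine ⟨?_, ?_⟩
    · show C (y p.1) = α • y p.1
      rw [hcomm y hy, hp.1, map_smul]
    · show C (y p.2) = α • y p.2
      rw [hcomm y hy, hp.2, map_smul]) with h | h
  · have h3 : ((u0, v0) : U × U) ∈ M := (hM _).2 ⟨h1', h2'⟩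
    rw [h, Submodule.mem_bot] at h3
    rcases h0 with h0 | h0
    · exact h0 (congrArg Prod.fst h3)
    · exact h0 (congrArg Prod.snd h3)
  · have h3 : ∀ v, B v v = α * Pf v v := by
      intro v
      have h4 : ((v, 0) : U × U) ∈ M := by
        rw [h]
        exact Submodule.mem_top
      have h5 := ((hM _).1 h4).1
      rw [← hCP, h5, map_smul, LinearMap.smul_apply, smul_eq_mul]
    have hne : ∀ v, B v v ≠ 0 → 0 < Pf v v := by
      intro v hv
      apply hPp
      rintro rfl
      simp at hv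
    have h4 := hne u₁ hu₁.ne'
    have h5 := hne u₂ hu₂.ne
    rw [h3] at hu₁ hu₂
    have h6 : 0 < α := by
      by_contra hcon
      have := mul_nonpos_of_nonpos_of_nonneg (not_lt.1 hcon) h4.le
      linarith
    have := mul_pos h6 h5
    linarith

end

/-- job COMP -/
theorem t_COMP (hTR : S_tr) (hDENS : S_dens) (hINNER : S_inner) : S_comp := by
  intro U _ _ _ G h1G hmul hinv hirr heig B hsym hB
  classical
  have hspan : Submodule.span ℝ G = ⊤ := by
    have hA := hDENS U (Algebra.adjoin ℝ G)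
      (fun M hJ hO => hirr M hJ (fun y hy p hp => hO y (Algebra.subset_adjoin hy) p hp))
    let S : Submonoid (End ℝ U) :=
      { carrier := G, one_mem' := h1G, mul_mem' := fun {a b} ha hb => hmul a ha b hb }
    have h2 : Subalgebra.toSubmodule (Algebra.adjoin ℝ (S : Set (End ℝ U))) =
        Submodule.span ℝ (S : Set (End ℝ U)) := by
      rw [Algebra.adjoin_eq_span, Submonoid.closure_eq]
    have h3 : Submodule.span ℝ G = Subalgebra.toSubmodule (Algebra.adjoin ℝ G) := h2.symm
    rw [h3, hA]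
    rfl
  obtain ⟨b, hbG, hbs, hbl⟩ := exists_linearIndependent ℝ G
  have hbf : b.Finite := hbl.setFinite
  rw [hspan] at hbs
  have htr : ∀ g ∈ G, ∀ y ∈ b, |LinearMap.trace ℝ U (g * y)| ≤ (finrank ℝ U : ℝ) :=
    fun g hg y hy => hTR U (g * y) (heig _ (hmul g hg y (hbG hy)))
  set m := finrank ℝ U with hm
  set β : Basis (Fin m) ℝ U := Module.finBasis ℝ U with hβ
  set T : End ℝ U ≃ₐ[ℝ] Matrix (Fin m) (Fin m) ℝ := LinearMap.toMatrixAlgEquiv β with hT
  have hbound : ∃ C : ℝ, ∀ g ∈ G, ∀ i j, |T g i j| ≤ C := by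
    have h1 : ∀ q : Fin m × Fin m, ∃ C : ℝ, ∀ g ∈ G, |T g q.1 q.2| ≤ C := by
      intro q
      let e : End ℝ U →ₗ[ℝ] ℝ :=
        { toFun := fun x => T x q.1 q.2
          map_add' := fun x y => by rw [map_add]; rfl
          map_smul' := fun a x => by rw [map_smul]; rfl }
      obtain ⟨C, hC⟩ := bdd_of_traces hbf hbs (m : ℝ) e
      exact ⟨C, fun g hg => hC g (htr g hg)⟩
    choose Cf hCf using h1
    obtain ⟨C, hC⟩ := (Set.finite_range Cf).bddAbove
    exact ⟨C, fun g hg i j => (hCf (i, j) g hg).trans (hC ⟨(i, j), rfl⟩)⟩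
  obtain ⟨C, hC⟩ := hbound
  let GG : Subgroup (GL (Fin m) ℝ) :=
    { carrier := {x | T.symm (x : Matrix (Fin m) (Fin m) ℝ) ∈ G}
      one_mem' := by
        show T.symm (1 : Matrix (Fin m) (Fin m) ℝ) ∈ G
        rw [map_one]
        exact h1G
      mul_mem' := by
        intro x y hx hy
        show T.symm ((x : Matrix (Fin m) (Fin m) ℝ) * (y : Matrix (Fin m) (Fin m) ℝ)) ∈ G
        rw [map_mul]
        exact hmul _ hx _ hy
      inv_mem' := by
        intro x hx
        obtain ⟨g', hg', h1, h2⟩ := hinv _ hx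
        show T.symm ((x⁻¹ : GL (Fin m) ℝ) : Matrix (Fin m) (Fin m) ℝ) ∈ G
        have h3 : T.symm ((x⁻¹ : GL (Fin m) ℝ) : Matrix (Fin m) (Fin m) ℝ) = g' := by
          have h4 : T.symm ((x⁻¹ : GL (Fin m) ℝ) : Matrix (Fin m) (Fin m) ℝ) *
              T.symm (x : Matrix (Fin m) (Fin m) ℝ) = 1 := by
            rw [← map_mul, ← Units.val_mul, inv_mul_cancel, Units.val_one, map_one]
          calc T.symm ((x⁻¹ : GL (Fin m) ℝ) : Matrix (Fin m) (Fin m) ℝ)
              = T.symm ((x⁻¹ : GL (Fin m) ℝ) : Matrix (Fin m) (Fin m) ℝ) *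
                (T.symm (x : Matrix (Fin m) (Fin m) ℝ) * g') := by rw [h1, mul_one]
            _ = g' := by rw [← mul_assoc, h4, one_mul]
        rw [h3]
        exact hg' }
  obtain ⟨P, hPd, hP⟩ := hINNER m GG C (by
    intro x hx i j
    have h1 := hC _ hx i j
    rwa [AlgEquiv.apply_symm_apply] at h1)
  have hPG : ∀ g ∈ G, (T g)ᵀ * P * T g = P := by
    intro g hg
    obtain ⟨g', hg', h1, h2⟩ := hinv g hg
    let x : GL (Fin m) ℝ := ⟨T g, T g', by rw [← map_mul, h1, map_one],
      by rw [← map_mul, h2, map_one]⟩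
    have hx : x ∈ GG := by
      show T.symm (T g) ∈ G
      rw [AlgEquiv.symm_apply_apply]
      exact hg
    exact hP x hx
  have hPt : Pᵀ = P := by
    have := hPd.isHermitian
    rw [Matrix.IsHermitian, Matrix.conjTranspose_eq_transpose_of_trivial] at this
    exact this
  let Pf : U →ₗ[ℝ] U →ₗ[ℝ] ℝ := LinearMap.mk₂ ℝ
    (fun u v => β.equivFun u ⬝ᵥ P *ᵥ β.equivFun v)
    (fun u v w => by rw [map_add, add_dotProduct])
    (fun c u v => by rw [map_smul, smul_dotProduct])
    (fun u v w => by rw [map_add, Matrix.mulVec_add, dotProduct_add])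
    (fun c u v => by rw [map_smul, Matrix.mulVec_smul, dotProduct_smul])
  have hPf : ∀ u v, Pf u v = β.equivFun u ⬝ᵥ P *ᵥ β.equivFun v := fun u v => rfl
  refine scalar_of_inner hinv hirr Pf ?_ ?_ ?_ B hsym hB
  · intro u v
    rw [hPf, hPf, dotProduct_comm, ← Matrix.vecMul_transpose, hPt, Matrix.dotProduct_mulVec]
  · intro u hu
    rw [hPf]
    have h1 : β.equivFun u ≠ 0 := by
      intro h
      exact hu (β.equivFun.map_eq_zero_iff.1 h)
    have h2 := hPd.dotProduct_mulVec_pos h1
    rwa [star_trivial] at h2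
  · intro g hg u v
    have h1 : ∀ w, β.equivFun (g w) = T g *ᵥ β.equivFun w := by
      intro w
      have := LinearMap.toMatrix_mulVec_repr β β g w
      exact this.symm
    rw [hPf, hPf, h1, h1]
    have h2 : ∀ a c : Fin m → ℝ, (T g *ᵥ a) ⬝ᵥ P *ᵥ (T g *ᵥ c) = a ⬝ᵥ ((T g)ᵀ * P * T g) *ᵥ c := by
      intro a c
      rw [← Matrix.mulVec_mulVec, ← Matrix.mulVec_mulVec, Matrix.dotProduct_mulVec a,
        Matrix.vecMul_transpose]
    rw [h2, hPG g hg]

end Pool.Agent.V5helper6.DRB
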