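import Pool.Agent.V5helper6.DRB.TR

set_option autoImplicit false

/-!
# Project DRB: the theorem of Burnside over the real numbers
-/

open Module

namespace Pool.Agent.V5helper6.DRB

open Pool.Agent.W544.K3

/-- job DENS -/
theorem t_DENS : S_dens := by
  intro U _ _ _ A hA
  classical
  rcases subsingleton_or_nontrivial U with hsub | hnt
  · ext x
    refine ⟨fun _ => Algebra.mem_top, fun _ => ?_⟩
    have h1 : x = 1 := LinearMap.ext fun u => Subsingleton.elim _ _
    rw [h1]
    exact A.one_mem
  have hsimple : IsSimpleModule A U := by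
    rw [isSimpleModule_iff]
    refine { exists_pair_ne := ⟨⊥, ⊤, bot_ne_top⟩, eq_bot_or_eq_top := fun W => ?_ }
    let W' : Submodule ℝ U := W.restrictScalars ℝ
    have hW : ∀ y ∈ A, ∀ u ∈ W', y u ∈ W' := fun y hy u hu => W.smul_mem ⟨y, hy⟩ hu
    rcases hA (W'.prod W') (fun p hp => ⟨W'.neg_mem hp.2, hp.1⟩)
      (fun y hy p hp => ⟨hW y hy _ hp.1, hW y hy _ hp.2⟩) with h | h
    · left
      ext x
      constructor
      · intro hx
        have h1 : ((x, 0) : U × U) ∈ W'.prod W' := ⟨hx, W'.zero_mem⟩
        rw [h, Submodule.mem_bot] at h1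
        rw [Submodule.mem_bot]
        exact congrArg Prod.fst h1
      · intro hx
        rw [Submodule.mem_bot] at hx
        rw [hx]
        exact W.zero_mem
    · right
      ext x
      refine ⟨fun _ => Submodule.mem_top, fun _ => ?_⟩
      have h1 : ((x, 0) : U × U) ∈ W'.prod W' := by
        rw [h]
        exact Submodule.mem_top
      exact h1.1
  have hscal : ∀ φ : Module.End A U, ∃ c : ℝ, ∀ v : U, φ v = c • v := by
    intro φ
    let f : End ℝ U := φ.restrictScalars ℝ
    have hf : ∀ y ∈ A, ∀ u, f (y u) = y (f u) := fun y hy u => φ.map_smul ⟨y, hy⟩ u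
    obtain ⟨α, β, u0, v0, h0, h1, h2⟩ := exists_ceig f
    let M : Submodule ℝ (U × U) :=
      { carrier := {p | f p.1 = α • p.1 - β • p.2 ∧ f p.2 = β • p.1 + α • p.2}
        zero_mem' := by simp
        add_mem' := by
          rintro p q ⟨hp1, hp2⟩ ⟨hq1, hq2⟩
          refine ⟨?_, ?_⟩
          · rw [Prod.fst_add, Prod.snd_add, map_add, hp1, hq1]
            module
          · rw [Prod.fst_add, Prod.snd_add, map_add, hp2, hq2]
            module
        smul_mem' := by
          rintro c p ⟨hp1, hp2⟩
          refine ⟨?_, ?_⟩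
          · rw [Prod.smul_fst, Prod.smul_snd, map_smul, hp1]
            module
          · rw [Prod.smul_fst, Prod.smul_snd, map_smul, hp2]
            module }
    have hM : ∀ p : U × U, p ∈ M ↔ f p.1 = α • p.1 - β • p.2 ∧ f p.2 = β • p.1 + α • p.2 :=
      fun p => Iff.rfl
    rcases hA M (by
      intro p hp
      rw [hM] at hp ⊢
      refine ⟨?_, ?_⟩
      · show f (-p.2) = α • (-p.2) - β • p.1
        rw [map_neg, hp.2]
        module
      · show f p.1 = β • (-p.2) + α • p.1
        rw [hp.1]
        module) (by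
      intro y hy p hp
      rw [hM] at hp ⊢
      refine ⟨?_, ?_⟩
      · show f (y p.1) = α • y p.1 - β • y p.2
        rw [hf y hy, hp.1, map_sub, map_smul, map_smul]
      · show f (y p.2) = β • y p.1 + α • y p.2
        rw [hf y hy, hp.2, map_add, map_smul, map_smul]) with h | h
    · exfalso
      have h3 : ((u0, v0) : U × U) ∈ M := ⟨h1, h2⟩
      rw [h, Submodule.mem_bot] at h3
      rcases h0 with h0 | h0
      · exact h0 (congrArg Prod.fst h3)
      · exact h0 (congrArg Prod.snd h3)
    · refine ⟨α, fun v => ?_⟩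
      have h3 : ((v, 0) : U × U) ∈ M := by
        rw [h]
        exact Submodule.mem_top
      have h4 := ((hM _).1 h3).1
      rw [smul_zero, sub_zero] at h4
      exact h4
  rw [eq_top_iff]
  rintro f0 -
  let f : Module.End (Module.End A U) U :=
    { toFun := f0
      map_add' := map_add f0
      map_smul' := fun φ v => by
        obtain ⟨c, hc⟩ := hscal φ
        have h1 : ∀ v : U, φ • v = c • v := fun v => hc v
        rw [RingHom.id_apply, h1, h1, map_smul] }
  set b := Module.finBasis ℝ U with hb
  obtain ⟨r, hr⟩ := jacobson_density (R := A) (M := U) f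
    (Finset.univ.image fun i => b i)
  have hf0 : f0 = (r : Module.End ℝ U) := by
    apply b.ext
    intro i
    exact hr _ (Finset.mem_image_of_mem _ (Finset.mem_univ i))
  rw [hf0]
  exact r.2

end Pool.Agent.V5helper6.DRB
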