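import Pool.Agent.W544.K3.Defs

set_option autoImplicit false

/-!
# Project DRB: complex eigenvalues and traces
-/

open Module

namespace Pool.Agent.V5helper6.DRB

open Pool.Agent.W544.K3

section
variable {U : Type} [AddCommGroup U] [Module ℝ U] [FiniteDimensional ℝ U]

/-- A complex root of the characteristic polynomial is a complex eigenvalue. -/
theorem ceig_of_root (g : End ℝ U) {n : ℕ} (b : Basis (Fin n) ℝ U) {z : ℂ}
    (hz : ((LinearMap.toMatrix b b g).map (algebraMap ℝ ℂ)).charpoly.IsRoot z) :
    CEig g z.re z.im := by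
  classical
  set G : Matrix (Fin n) (Fin n) ℝ := LinearMap.toMatrix b b g with hG
  set G' : Matrix (Fin n) (Fin n) ℂ := G.map (algebraMap ℝ ℂ) with hG'
  have h1 : (Matrix.scalar (Fin n) z - G').det = 0 := by
    have h := hz
    rw [Polynomial.IsRoot.def, Matrix.eval_charpoly] at h
    exact h
  obtain ⟨w, hw0, hw⟩ := Matrix.exists_mulVec_eq_zero_iff.2 h1
  have hw' : G'.mulVec w = z • w := by
    rw [Matrix.sub_mulVec, sub_eq_zero] at hw
    rw [← hw, Matrix.scalar_apply, ← Matrix.smul_one_eq_diagonal, Matrix.smul_mulVec,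
      Matrix.one_mulVec]
  have hre : ∀ i, ∑ j, G i j * (w j).re = z.re * (w i).re - z.im * (w i).im := by
    intro i
    have h2 := congrArg Complex.re (congrFun hw' i)
    simp only [Matrix.mulVec, dotProduct, Pi.smul_apply, smul_eq_mul, Complex.re_sum,
      Complex.mul_re, hG', Matrix.map_apply, Complex.coe_algebraMap, Complex.ofReal_re,
      Complex.ofReal_im, zero_mul, sub_zero] at h2
    exact h2
  have him : ∀ i, ∑ j, G i j * (w j).im = z.re * (w i).im + z.im * (w i).re := by
    intro i
    have h2 := congrArg Complex.im (congrFun hw' i)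
    simp only [Matrix.mulVec, dotProduct, Pi.smul_apply, smul_eq_mul, Complex.im_sum,
      Complex.mul_im, hG', Matrix.map_apply, Complex.coe_algebraMap, Complex.ofReal_re,
      Complex.ofReal_im, zero_mul, add_zero] at h2
    exact h2
  have hgen : ∀ a : Fin n → ℝ, g (∑ i, a i • b i) = ∑ i, (∑ j, G i j * a j) • b i := by
    intro a
    have h3 : ∀ j, g (b j) = ∑ i, G i j • b i := by
      intro j
      rw [← b.sum_repr (g (b j))]
      refine Finset.sum_congr rfl fun i _ => ?_
      rw [hG, LinearMap.toMatrix_apply]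
    rw [map_sum]
    simp only [map_smul, h3, Finset.smul_sum, Finset.sum_smul, smul_smul]
    rw [Finset.sum_comm]
    refine Finset.sum_congr rfl fun i _ => Finset.sum_congr rfl fun j _ => ?_
    rw [mul_comm]
  refine ⟨∑ i, (w i).re • b i, ∑ i, (w i).im • b i, ?_, ?_, ?_⟩
  · by_contra hcon
    push Not at hcon
    apply hw0
    funext i
    have h4 := Fintype.linearIndependent_iff.1 b.linearIndependent _ hcon.1 i
    have h5 := Fintype.linearIndependent_iff.1 b.linearIndependent _ hcon.2 i
    exact Complex.ext h4 h5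
  · rw [hgen]
    simp only [hre, sub_smul, mul_smul, Finset.sum_sub_distrib, Finset.smul_sum]
  · rw [hgen]
    simp only [him, add_smul, mul_smul, Finset.sum_add_distrib, Finset.smul_sum]
    rw [add_comm]

/-- Operators on nontrivial spaces have complex eigenvalues. -/
theorem exists_ceig [Nontrivial U] (g : End ℝ U) : ∃ α β : ℝ, CEig g α β := by
  classical
  set b := Module.finBasis ℝ U with hb
  have hpos : 0 < finrank ℝ U := Module.finrank_pos
  have hdeg : ((LinearMap.toMatrix b b g).map (algebraMap ℝ ℂ)).charpoly.degree ≠ 0 := by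
    rw [Matrix.charpoly_degree_eq_dim, Fintype.card_fin]
    exact_mod_cast hpos.ne'
  obtain ⟨z, hz⟩ := IsAlgClosed.exists_root _ hdeg
  exact ⟨z.re, z.im, ceig_of_root g b hz⟩

end

/-- job TR -/
theorem t_TR : S_tr := by
  intro U _ _ _ g hg
  classical
  set b := Module.finBasis ℝ U with hb
  set G : Matrix (Fin (finrank ℝ U)) (Fin (finrank ℝ U)) ℝ := LinearMap.toMatrix b b g with hG
  set G' : Matrix (Fin (finrank ℝ U)) (Fin (finrank ℝ U)) ℂ := G.map (algebraMap ℝ ℂ) with hG'
  have h1 : LinearMap.trace ℝ U g = G.trace := LinearMap.trace_eq_matrix_trace ℝ b g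
  have h2 : ((G.trace : ℝ) : ℂ) = G'.trace := by
    rw [hG', Matrix.trace, Matrix.trace]
    simp
  have h3 : G'.trace = G'.charpoly.roots.sum := Matrix.trace_eq_sum_roots_charpoly G'
  have h4 : |LinearMap.trace ℝ U g| = ‖G'.charpoly.roots.sum‖ := by
    rw [h1, ← h3, ← h2, Complex.norm_real, Real.norm_eq_abs]
  rw [h4]
  have hroot : ∀ z ∈ G'.charpoly.roots, ‖z‖ ≤ 1 := by
    intro z hz
    have h5 := hg _ _ (ceig_of_root g b (Polynomial.isRoot_of_mem_roots hz))
    have h6 : ‖z‖ ^ 2 = 1 := by
      rw [Complex.sq_norm, Complex.normSq_apply]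
      nlinarith
    nlinarith [norm_nonneg z]
  have hcard : Multiset.card G'.charpoly.roots ≤ finrank ℝ U := by
    refine (Polynomial.card_roots' _).trans ?_
    rw [Matrix.charpoly_natDegree_eq_dim, Fintype.card_fin]
  calc ‖G'.charpoly.roots.sum‖ ≤ (G'.charpoly.roots.map fun x => ‖x‖).sum :=
        norm_multiset_sum_le _
    _ ≤ Multiset.card (G'.charpoly.roots.map fun x => ‖x‖) • (1 : ℝ) := by
        refine Multiset.sum_le_card_nsmul _ _ ?_
        intro x hx
        obtain ⟨z, hz, rfl⟩ := Multiset.mem_map.1 hx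
        exact hroot z hz
    _ ≤ (finrank ℝ U : ℝ) := by
        rw [Multiset.card_map, nsmul_eq_mul, mul_one]
        exact_mod_cast hcard

end Pool.Agent.V5helper6.DRB
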